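import Pool.Agent.MP_86c931_ag.H56.RowsA

/-! A sheaf of deformations from a family of subalgebras of a deformation of the function
field. -/

namespace Pool.Agent.MP_86c931_ag.H41

open AlgebraicGeometry CategoryTheory TopologicalSpace Opposite
open scoped PowerSeries
open Pool.Agent.MP_86c931_ag.H56

lemma flat_of_tf {C : Type} [Ring C] [Algebra ℂ⟦X⟧ C] (tf : TF C) : Module.Flat ℂ⟦X⟧ C := by
  rw [Module.Flat.flat_iff_torsion_eq_bot_of_isBezout, eq_bot_iff]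
  rintro F ⟨⟨r, hr⟩, h⟩
  obtain ⟨n, u, rfl⟩ := IsDiscreteValuationRing.eq_unit_mul_pow_irreducible
    (nonZeroDivisors.ne_zero hr) (PowerSeries.X_irreducible (R := ℂ))
  have h' : ((u : ℂ⟦X⟧) * PowerSeries.X ^ n) • F = 0 := h
  rw [mul_smul] at h'
  exact tf.pow n F ((u.isUnit.smul_eq_zero).1 h')

section

variable {K : Type} [Field K] [Algebra ℂ K] {Y : Scheme.{0}} [IsIntegral Y]
  (ε : Y.functionField →+* K) (hc : ∀ c : ℂ, ∃ k, Reg ⊤ k ∧ ε k = algebraMap ℂ K c)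

/-- functions regular on an open set -/
def SV (V : Y.Opens) : Subalgebra ℂ K where
  carrier := {z | ∃ k, Reg V k ∧ ε k = z}
  mul_mem' := by
    rintro _ _ ⟨k, hk, rfl⟩ ⟨l, hl, rfl⟩
    exact ⟨k * l, hk.mul hl, map_mul _ _ _⟩
  add_mem' := by
    rintro _ _ ⟨k, hk, rfl⟩ ⟨l, hl, rfl⟩
    exact ⟨k + l, hk.add hl, map_add _ _ _⟩
  algebraMap_mem' c := by
    obtain ⟨k, hk, h⟩ := hc c
    exact ⟨k, hk.mono le_top, h⟩

lemma SV_mono {U V : Y.Opens} (i : V ≤ U) : SV ε hc U ≤ SV ε hc V := by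
  rintro _ ⟨k, hk, rfl⟩
  exact ⟨k, hk.mono i, rfl⟩

/-- functions regular near a point -/
def Sy (y : Y) : Subalgebra ℂ K where
  carrier := {z | ∃ V : Y.Opens, y ∈ V ∧ z ∈ SV ε hc V}
  mul_mem' := by
    rintro _ _ ⟨U, hU, h1⟩ ⟨V, hV, h2⟩
    exact ⟨U ⊓ V, ⟨hU, hV⟩, mul_mem (SV_mono ε hc inf_le_left h1) (SV_mono ε hc inf_le_right h2)⟩
  add_mem' := by
    rintro _ _ ⟨U, hU, h1⟩ ⟨V, hV, h2⟩
    exact ⟨U ⊓ V, ⟨hU, hV⟩, add_mem (SV_mono ε hc inf_le_left h1) (SV_mono ε hc inf_le_right h2)⟩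
  algebraMap_mem' c := ⟨⊤, trivial, algebraMap_mem _ c⟩

lemma SV_le_Sy {V : Y.Opens} {y : Y} (hy : y ∈ V) : SV ε hc V ≤ Sy ε hc y :=
  fun _ hz => ⟨V, hy, hz⟩

variable {κ : Type} {U : κ → Y.Opens} {hU : ∀ k, gp Y ∈ U k} {O : κ → Subalgebra ℂ K}
  (haff : ∀ k, IsAffineOpen (U k))
  (hO : ∀ k (z : K), z ∈ O k ↔ ∃ s, ε (emb (U k) (hU k) s) = z)

include hO in
lemma O_eq (k : κ) : O k = SV ε hc (U k) := by
  ext z
  rw [hO]
  constructor
  · rintro ⟨s, rfl⟩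
    exact ⟨_, reg_emb _ _ s, rfl⟩
  · rintro ⟨_, ⟨s, hs⟩, rfl⟩
    exact ⟨s, by rw [hs]⟩

include haff hO in
lemma good_of {S : Subalgebra ℂ K} (k : κ) (h1 : SV ε hc (U k) ≤ S)
    (h2 : ∀ z ∈ S, ∃ g : Γ(Y, U k), gp Y ∈ Y.basicOpen g ∧ z ∈ SV ε hc (Y.basicOpen g) ∧
      SV ε hc (Y.basicOpen g) ≤ S) : Good O S := by
  refine ⟨k, (O_eq ε hc hO k).le.trans h1, fun z hz => ?_⟩
  obtain ⟨g, hg, ⟨l, hl, rfl⟩, hS⟩ := h2 z hz
  obtain ⟨j, hj⟩ := (reg_basicOpen_iff (haff k) g hg l).1 hl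
  have h0 : emb (U k) (Y.basicOpen_le g hg) g ^ j ≠ 0 := pow_ne_zero _ (emb_ne_zero_of_mem g hg)
  rw [O_eq ε hc hO k]
  refine ⟨ε (emb (U k) (Y.basicOpen_le g hg) g ^ j), ⟨_, ?_, rfl⟩, (map_ne_zero ε).2 h0,
    hS ⟨_, (reg_basicOpen_iff (haff k) g hg _).2 ⟨j, ?_⟩, map_inv₀ ε _⟩, ⟨_, hj, map_mul _ _ _⟩⟩
  · rw [← map_pow]
    exact reg_emb _ _ _
  · rw [inv_mul_cancel₀ h0, ← map_one (emb (U k) (hU k))]
    exact reg_emb _ _ _

include haff hO in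
lemma good_Sy (hcov : ∀ y, ∃ k, y ∈ U k) (y : Y) : Good O (Sy ε hc y) := by
  obtain ⟨k, hk⟩ := hcov y
  refine good_of ε hc haff hO k (SV_le_Sy ε hc hk) ?_
  rintro z ⟨V, hV, hz⟩
  obtain ⟨g, h1, h2⟩ := (haff k).exists_basicOpen_le (V := V) ⟨y, hV⟩ hk
  exact ⟨g, gen_mem h2, SV_mono ε hc h1 hz, SV_le_Sy ε hc h2⟩

include haff hO in
lemma good_SV (k : κ) (g : Γ(Y, U k)) (hg : gp Y ∈ Y.basicOpen g) :
    Good O (SV ε hc (Y.basicOpen g)) :=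
  good_of ε hc haff hO k (SV_mono ε hc (Y.basicOpen_le g)) fun _ hz => ⟨g, hg, hz, le_rfl⟩

end

section

variable {M : Type} [Ring M] [Algebra ℂ⟦X⟧ M] {Y : Scheme.{0}} (T : Y → Subalgebra ℂ⟦X⟧ M)

/-- constant functions with values in the prescribed subalgebras -/
def BV (V : Y.Opens) : Subalgebra ℂ⟦X⟧ (V → M) where
  carrier := {f | (∀ y z, f y = f z) ∧ ∀ y : V, f y ∈ T y.1}
  mul_mem' := fun ha hb' => ⟨fun y z => by rw [Pi.mul_apply, Pi.mul_apply, ha.1 y z, hb'.1 y z],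
    fun y => mul_mem (ha.2 y) (hb'.2 y)⟩
  add_mem' := fun ha hb' => ⟨fun y z => by rw [Pi.add_apply, Pi.add_apply, ha.1 y z, hb'.1 y z],
    fun y => add_mem (ha.2 y) (hb'.2 y)⟩
  algebraMap_mem' c := ⟨fun _ _ => rfl, fun y => algebraMap_mem (T y.1) c⟩

/-- restriction -/
def rB {U V : Y.Opens} (i : V ≤ U) : BV T U →ₐ[ℂ⟦X⟧] BV T V where
  toFun f := ⟨fun y => f.1 ⟨y.1, i y.2⟩, fun _ _ => f.2.1 _ _, fun y => f.2.2 ⟨y.1, i y.2⟩⟩
  map_one' := rfl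
  map_mul' _ _ := rfl
  map_zero' := rfl
  map_add' _ _ := rfl
  commutes' _ := rfl

/-- the presheaf -/
noncomputable def BP : TopCat.Presheaf (AlgCat.{0} ℂ⟦X⟧) Y where
  obj U := AlgCat.of ℂ⟦X⟧ (BV T U.unop)
  map i := AlgCat.ofHom (rB T i.unop.le)
  map_id _ := rfl
  map_comp _ _ := rfl

lemma BP_isSheaf [IsIntegral Y] : (BP T).IsSheaf := by
  rw [TopCat.Presheaf.isSheaf_iff_isSheafUniqueGluing]
  intro ι U sf hc
  let s : ∀ i, BV T (U i) := sf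
  have hc' : ∀ i j y z, (s i).1 y = (s j).1 z := by
    intro i j y z
    have h : gp Y ∈ U i ⊓ U j := ⟨gen_mem y.2, gen_mem z.2⟩
    have e : rB T (inf_le_left : U i ⊓ U j ≤ U i) (s i) =
      rB T (inf_le_right : U i ⊓ U j ≤ U j) (s j) := hc i j
    have e' := congrFun (congrArg Subtype.val e) ⟨_, h⟩
    exact ((s i).2.1 _ _).trans (e'.trans ((s j).2.1 _ _))
  have hex : ∀ y : (iSup U : Y.Opens), ∃ i, y.1 ∈ U i := fun y => Opens.mem_iSup.1 y.2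
  choose c hc using hex
  refine ⟨(⟨fun y => (s (c y)).1 ⟨y.1, hc y⟩, fun y z => hc' _ _ _ _,
    fun y => (s (c y)).2.2 ⟨y.1, hc y⟩⟩ :
    BV T (iSup U)), fun i => ?_, fun b' hb' => ?_⟩
  · exact Subtype.ext (funext fun y => hc' _ _ _ _)
  · refine Subtype.ext (funext fun y => ?_)
    have e : rB T (le_iSup U (c y)) b' = s (c y) := hb' (c y)
    exact congrFun (congrArg Subtype.val e) ⟨y.1, hc y⟩

variable {T}

lemma BV_tf (tf : TF M) (V : Y.Opens) : TF (BV T V) := fun _ hc =>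
  Subtype.ext (funext fun y => tf _ (congrFun (congrArg Subtype.val hc) y))

lemma BV_dv_val {V : Y.Opens} {n : ℕ} {f : BV T V} (h : Dv n f) (y : V) : Dv n (f.1 y) := by
  obtain ⟨d, rfl⟩ := h
  exact ⟨d.1 y, rfl⟩

lemma BV_dv (tf : TF M) (hT : ∀ y n, ∀ c ∈ T y, Dv n c → ∃ d ∈ T y, c = hb ^ n • d)
    {V : Y.Opens} {n : ℕ} {f : BV T V} (h : ∀ y, Dv n (f.1 y)) : Dv n f := by
  choose d hd he using fun y : V => hT y.1 n _ (f.2.2 y) (h y)
  refine ⟨⟨d, fun y z => sub_eq_zero.1 (tf.pow n _ ?_), hd⟩, Subtype.ext (funext he)⟩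
  rw [smul_sub, ← he, ← he, f.2.1 y z, sub_self]

lemma BP_complete [IsIntegral Y] (tf : TF M) (hM : SeqComplete M)
    (hT : ∀ y n, ∀ c ∈ T y, Dv n c → ∃ d ∈ T y, c = hb ^ n • d) (hcl : ∀ y, SeqClosed (T y)) :
    Complete (BP T) := by
  intro U V i s0 hV hs
  let s : ∀ n y, BV T (V n y) := s0
  by_cases h : gp Y ∈ U
  · have hg : ∀ n y, gp Y ∈ V n y := fun n y => gen_mem (hV n y)
    have hs' : ∀ n m y z a b, n ≤ m → Dv n ((s n y).1 a - (s m z).1 b) := by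
      intro n m y z a b hnm
      have e : Dv n (rB T (inf_le_left : V n y ⊓ V m z ≤ V n y) (s n y) -
        rB T (inf_le_right : V n y ⊓ V m z ≤ V m z) (s m z)) := hs n m y z hnm
      rw [(s n y).2.1 a ⟨_, hg n y⟩, (s m z).2.1 b ⟨_, hg m z⟩]
      exact BV_dv_val e ⟨_, hg n y, hg m z⟩
    obtain ⟨t, ht, hu⟩ := hM (fun n => (s n ⟨_, h⟩).1 ⟨_, hg n _⟩)
      fun n => hs' n (n + 1) _ _ _ _ n.le_succ
    have ht' : ∀ n y a, Dv n (t - (s n y).1 a) := fun n y a => by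
      have := (ht n).add (hs' n n ⟨_, h⟩ y ⟨_, hg n _⟩ a le_rfl)
      rwa [sub_add_sub_cancel] at this
    refine ⟨(⟨fun _ => t, fun _ _ => rfl, fun y => hcl y.1 t (fun n => (s n y).1 ⟨_, hV n y⟩)
      (fun n => (s n y).2.2 ⟨_, hV n y⟩) fun n => ht' n y _⟩ : BV T U), fun n y => ?_, fun t' ht'' => ?_⟩
    · exact BV_dv tf hT (V := V n y) fun a => ht' n y a
    · refine Subtype.ext (funext fun y => ?_)
      refine ((show BV T U from t').2.1 y ⟨_, h⟩).trans (hu _ fun n => ?_)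
      exact BV_dv_val (V := V n ⟨_, h⟩) (ht'' n ⟨_, h⟩) ⟨_, hg n _⟩
  · exact ⟨0, fun n y => (h (gen_mem y.2)).elim,
      fun t' _ => Subtype.ext (funext fun y => (h (gen_mem y.2)).elim)⟩

end

theorem rowEXS : RowEXS := by
  intro R K M _ _ _ _ _ _ β ι Y _ ρ ε hε κ U hU O haff hcov hO Q Sb tf hM hβ hmono hSb
  have hc : ∀ c : ℂ, ∃ k, Reg (⊤ : Y.Opens) k ∧ ε k = algebraMap ℂ K c := fun c =>
    ⟨_, reg_emb ⊤ trivial (fn ρ (algebraMap ℂ R c) ⊤), (hε _ _ _).trans (ι.commutes c)⟩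
  let T : Y → Subalgebra ℂ⟦X⟧ M := fun y => Sb (Sy ε hc y)
  have hy := fun y => hSb _ (good_Sy ε hc haff hO hcov y)
  have hT : ∀ y n, ∀ c ∈ T y, Dv n c → ∃ d ∈ T y, c = hb ^ n • d :=
    fun y n c h1 h2 => (hy y).1.dv_tf tf h1 h2
  have hex : ∀ (V : Y.Opens) (f : BV T V), ∃ s : Γ(Y, V), ∀ h : gp Y ∈ V,
      ε (emb V h s) = Q.π (f.1 ⟨_, h⟩) := by
    intro V f
    by_cases h : gp Y ∈ V
    · obtain ⟨_, -, k, -, hk⟩ := (hy _).1.map_mem _ (f.2.2 ⟨_, h⟩)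
      have : Reg V k := reg_glue fun y hyV => by
        obtain ⟨W, hW, l, hl, e⟩ := (hy y).1.map_mem _ (f.2.2 ⟨y, hyV⟩)
        have : l = k := ε.injective (by rw [e, hk, f.2.1 ⟨y, hyV⟩ ⟨_, h⟩])
        exact ⟨V ⊓ W, inf_le_left, ⟨hyV, hW⟩, this ▸ hl.mono inf_le_right⟩
      obtain ⟨s, hs⟩ := this
      exact ⟨s, fun h' => by rw [hs, hk]⟩
    · exact ⟨0, fun h' => (h h').elim⟩
  choose p hp using hex
  have hext : ∀ {V : Y.Opens} {s t : Γ(Y, V)}, (∀ h, ε (emb V h s) = ε (emb V h t)) → s = t :=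
    fun H => ext_emb fun h => ε.injective (H h)
  let π : ∀ V : Y.Opens, BV T V →+* Γ(Y, V) := fun V =>
    { toFun := p V
      map_one' := hext fun h => by rw [hp, map_one, map_one]; exact map_one Q.π
      map_mul' := fun a b => hext fun h => by
        rw [map_mul, map_mul, hp, hp, hp]; exact map_mul Q.π _ _
      map_zero' := hext fun h => by rw [hp, map_zero, map_zero]; exact map_zero Q.π
      map_add' := fun a b => hext fun h => by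
        rw [map_add, map_add, hp, hp, hp]; exact map_add Q.π _ _ }
  have hπ : ∀ (V : Y.Opens) (f : BV T V) (h : gp Y ∈ V),
      ε (emb V h (π V f)) = Q.π (f.1 ⟨_, h⟩) := hp
  refine ⟨BP T, π, BP_isSheaf T, fun V => flat_of_tf (BV_tf tf V),
    BP_complete tf hM hT fun y => (hy y).2, ⟨fun V W i b => hext fun h => ?_,
      fun V c => hext fun h => ?_, fun V b => ⟨fun h0 => ?_, fun h0 => hext fun h => ?_⟩,
      fun V f y hyV => ?_⟩, fun V a b c f g ha hb' hab => hext fun h => ?_⟩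
  · rw [resO_eq, emb_rs]
    exact (hπ W _ h).trans (hπ V b (i h)).symm
  · rw [hε, ι.commutes]
    exact (hπ V _ h).trans (Q.π_alg c)
  · refine BV_dv tf hT (V := V) fun y => Q.dv_one ?_
    have h := gen_mem y.2
    have e := hπ V b h
    rw [show π V b = 0 from h0, map_zero, map_zero] at e
    rw [(show BV T V from b).2.1 y ⟨_, h⟩, ← e]
  · rw [map_zero, map_zero]
    exact (hπ V b h).trans (Q.π_dv (n := 0) (BV_dv_val (V := V) h0 ⟨_, h⟩))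
  · obtain ⟨k, hk⟩ := hcov y
    obtain ⟨g, h1, h2⟩ := (haff k).exists_basicOpen_le (V := V) ⟨y, hyV⟩ hk
    have hg : gp Y ∈ Y.basicOpen g := gen_mem h2
    obtain ⟨c, hc1, hc2⟩ := (hSb _ (good_SV ε hc haff hO k g hg)).1.surj
      (ε (emb _ hg (rs h1 f))) ⟨_, reg_emb _ _ _, rfl⟩
    refine ⟨Y.basicOpen g, h1, h2, (⟨fun _ => c, fun _ _ => rfl,
      fun z => hmono (SV_le_Sy ε hc z.2) hc1⟩ : BV T (Y.basicOpen g)), hext fun h => ?_⟩
    exact (hπ _ _ h).trans hc2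
  · rw [hε]
    refine (hπ V c h).trans (hβ ((show BV T V from a).1 ⟨_, h⟩) ((show BV T V from b).1 ⟨_, h⟩)
      _ f g ?_ ?_ (congrFun (congrArg Subtype.val hab) ⟨_, h⟩))
    · rw [← hπ V a h, show π V a = fn ρ f V from ha, hε]
    · rw [← hπ V b h, show π V b = fn ρ g V from hb', hε]

end Pool.Agent.MP_86c931_ag.H41
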